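import Mathlib
import Pool.Graph.R_seed8.Results.MP_6750b5_co.EvenOddBipartite

set_option autoImplicit false

/-!
# MP_6750b5_co: which symmetric tensor powers of a graph are nested

The library result is the failure for bipartite graphs, `k` even and `r` odd. Here: the powers
`k ≤ r` are nested for every graph if `r - k` is even, or if the graph has a closed walk of odd
length at most `r - k`; and for bipartite graphs with an edge they are nested if and only if it is
not the case that `k` is even and `r` is odd.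

The main lemma (`step`): if `x` and `y` are adjacent, then adjoining `x` to the tuple `i` and `y` to
the tuple `j` does not decrease the weight, `ω^{⊙(k+1)}(i ∪ x, j ∪ y) ≥ ω^{⊙k}(i, j)`.
-/

namespace Pool.Agent.Results.MP_6750b5_co.BipartiteClassification

open Finset Pool.Agent.Results.MP_6750b5_co.EvenOddBipartite

variable {n k : ℕ}

/-! ### Counting -/

/-- the pairs of rearrangements which are adjacent in every place -/
noncomputable def S (adj : Fin n → Fin n → Prop) (f g : Fin k → Fin n) :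
    Finset ((Fin k → Fin n) × (Fin k → Fin n)) :=
  open Classical in (orb f ×ˢ orb g).filter fun pq => ∀ l, adj (pq.1 l) (pq.2 l)

theorem mem_S {adj : Fin n → Fin n → Prop} {f g : Fin k → Fin n}
    {pq : (Fin k → Fin n) × (Fin k → Fin n)} :
    pq ∈ S adj f g ↔ (pq.1 ∈ orb f ∧ pq.2 ∈ orb g) ∧ ∀ l, adj (pq.1 l) (pq.2 l) := by
  classical
  unfold S
  rw [mem_filter, mem_product]

theorem sum_eq (adj : Fin n → Fin n → Prop) (f g : Fin k → Fin n) :
    ∑ p ∈ orb f, ∑ q ∈ orb g, ∏ l, weight adj (p l) (q l) = ((S adj f g).card : ℝ) := by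
  classical
  rw [← sum_product', S, card_filter, Nat.cast_sum]
  refine sum_congr rfl fun pq _ => ?_
  unfold weight
  rw [prod_ite_zero]
  simp

theorem mult_comp (f : Fin k → Fin n) (σ : Equiv.Perm (Fin k)) (a : Fin n) :
    mult (f ∘ σ) a = mult f a := by
  unfold mult
  refine card_bij (fun s _ => σ s) ?_ ?_ ?_
  · intro s hs; simpa using hs
  · intro s _ t _ h; exact σ.injective h
  · intro t ht
    refine ⟨σ.symm t, ?_, by simp⟩
    simpa using ht

theorem multinom_comp (f : Fin k → Fin n) (σ : Equiv.Perm (Fin k)) :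
    multinom (f ∘ σ) = multinom f := by
  unfold multinom
  simp only [mult_comp]

theorem orb_comp (f : Fin k → Fin n) (σ : Equiv.Perm (Fin k)) : orb (f ∘ σ) = orb f := by
  ext p
  rw [mem_orb, mem_orb]
  constructor
  · rintro ⟨τ, rfl⟩
    exact ⟨σ * τ, by funext x; simp⟩
  · rintro ⟨τ, rfl⟩
    exact ⟨σ⁻¹ * τ, by funext x; simp⟩

/-- the weight of arbitrary (not necessarily sorted) tuples -/
noncomputable def W (adj : Fin n → Fin n → Prop) (f g : Fin k → Fin n) : ℝ :=
  (multinom f * multinom g) ^ (-(1 / 2) : ℝ) *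
    ∑ p ∈ orb f, ∑ q ∈ orb g, ∏ l, weight adj (p l) (q l)

theorem powWeight_eq (adj : Fin n → Fin n → Prop) (i j : PowVertex n k) :
    powWeight adj i j = W adj i.1 j.1 := rfl

theorem W_comp (adj : Fin n → Fin n → Prop) (f g : Fin k → Fin n) (σ τ : Equiv.Perm (Fin k)) :
    W adj (f ∘ σ) (g ∘ τ) = W adj f g := by
  unfold W
  rw [multinom_comp, multinom_comp, orb_comp, orb_comp]

theorem mult_cons (x : Fin n) (f : Fin k → Fin n) (a : Fin n) :
    mult (Fin.cons x f : Fin (k + 1) → Fin n) a = mult f a + if x = a then 1 else 0 := by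
  unfold mult
  rw [Fin.card_filter_univ_succ']
  simp only [Fin.cons_zero, Fin.cons_succ]
  ring

theorem multinom_cons (x : Fin n) (f : Fin k → Fin n) :
    multinom (Fin.cons x f : Fin (k + 1) → Fin n) * (mult f x + 1) = multinom f * (k + 1) := by
  unfold multinom
  have h1 : ∏ l, ((mult (Fin.cons x f : Fin (k + 1) → Fin n) l).factorial : ℝ) =
      (mult f x + 1) * ∏ l, ((mult f l).factorial : ℝ) := by
    rw [← mul_prod_erase univ _ (mem_univ x), ← mul_prod_erase univ (fun l => ((mult f l).factorial : ℝ))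
      (mem_univ x), mult_cons, if_pos rfl, Nat.factorial_succ]
    have h2 : ∏ l ∈ univ.erase x, ((mult (Fin.cons x f : Fin (k + 1) → Fin n) l).factorial : ℝ) =
        ∏ l ∈ univ.erase x, ((mult f l).factorial : ℝ) := by
      refine prod_congr rfl fun l hl => ?_
      rw [mult_cons, if_neg (fun h => (mem_erase.1 hl).1 h.symm), add_zero]
    rw [h2]
    push_cast
    ring
  have h3 : (0 : ℝ) < ∏ l, ((mult f l).factorial : ℝ) :=
    prod_pos fun l _ => by exact_mod_cast Nat.factorial_pos _
  have h4 : (0 : ℝ) < mult f x + 1 := by positivity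
  rw [h1, Nat.factorial_succ]
  push_cast
  field_simp

theorem insertNth_mem_orb {x : Fin n} {f p : Fin k → Fin n} (hp : p ∈ orb f) (l : Fin (k + 1)) :
    (l.insertNth x p : Fin (k + 1) → Fin n) ∈ orb (Fin.cons x f : Fin (k + 1) → Fin n) := by
  obtain ⟨σ, rfl⟩ := mem_orb.1 hp
  rw [mem_orb]
  refine ⟨Equiv.Perm.decomposeFin.symm (0, σ) * l.cycleRange, ?_⟩
  have h1 : (Fin.cons x (f ∘ σ) : Fin (k + 1) → Fin n) =
      (Fin.cons x f : Fin (k + 1) → Fin n) ∘ (Equiv.Perm.decomposeFin.symm (0, σ)) := by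
    funext j
    refine Fin.cases ?_ (fun j => ?_) j
    · simp
    · simp
  rw [← Fin.cons_comp_cycleRange, h1]
  rfl

theorem count_le (adj : Fin n → Fin n → Prop) {x y : Fin n} (hxy : adj x y)
    (f g : Fin k → Fin n) :
    (k + 1) * (S adj f g).card ≤
        (S adj (Fin.cons x f : Fin (k + 1) → Fin n) (Fin.cons y g : Fin (k + 1) → Fin n)).card *
          (mult f x + 1) ∧
    (k + 1) * (S adj f g).card ≤
        (S adj (Fin.cons x f : Fin (k + 1) → Fin n) (Fin.cons y g : Fin (k + 1) → Fin n)).card *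
          (mult g y + 1) := by
  classical
  set S' := S adj (Fin.cons x f : Fin (k + 1) → Fin n) (Fin.cons y g : Fin (k + 1) → Fin n) with hS'
  set T : Finset (Σ _ : (Fin (k + 1) → Fin n) × (Fin (k + 1) → Fin n), Fin (k + 1)) :=
    S'.sigma fun s => univ.filter fun l => s.1 l = x ∧ s.2 l = y with hT
  have h1 : (k + 1) * (S adj f g).card ≤ T.card := by
    have h2 : ((univ : Finset (Fin (k + 1))) ×ˢ S adj f g).card = (k + 1) * (S adj f g).card := by
      rw [card_product, card_univ, Fintype.card_fin]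
    rw [← h2]
    refine card_le_card_of_injOn
      (fun t => ⟨(t.1.insertNth x t.2.1, t.1.insertNth y t.2.2), t.1⟩) ?_ ?_
    · rintro ⟨l, p, q⟩ ht
      rw [mem_coe, mem_product] at ht
      obtain ⟨-, ht⟩ := ht
      rw [mem_S] at ht
      obtain ⟨⟨hp, hq⟩, had⟩ := ht
      rw [mem_coe, hT, mem_sigma, hS', mem_S, mem_filter]
      refine ⟨⟨⟨insertNth_mem_orb hp l, insertNth_mem_orb hq l⟩, fun m => ?_⟩, mem_univ _, ?_, ?_⟩
      · refine Fin.succAboveCases l ?_ (fun m => ?_) m
        · simpa using hxy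
        · simpa using had m
      · simp
      · simp
    · rintro ⟨l, p, q⟩ _ ⟨l', p', q'⟩ _ h
      simp only [Sigma.mk.injEq, Prod.mk.injEq, heq_eq_eq] at h
      obtain ⟨⟨h1, h2⟩, rfl⟩ := h
      have h3 := (Fin.insertNth_right_injective (α := fun _ => Fin n) (p := l) x) h1
      have h4 := (Fin.insertNth_right_injective (α := fun _ => Fin n) (p := l) y) h2
      rw [h3, h4]
  have h2 : ∀ s ∈ S', (univ.filter fun l => s.1 l = x ∧ s.2 l = y).card ≤ mult f x + 1 := by
    intro s hs
    rw [hS', mem_S] at hs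
    obtain ⟨σ, hσ⟩ := mem_orb.1 hs.1.1
    have h3 : mult s.1 x = mult f x + 1 := by
      rw [hσ, mult_comp, mult_cons, if_pos rfl]
    rw [← h3]
    exact card_le_card fun l hl => by
      rw [mem_filter] at hl ⊢
      exact ⟨hl.1, hl.2.1⟩
  have h2' : ∀ s ∈ S', (univ.filter fun l => s.1 l = x ∧ s.2 l = y).card ≤ mult g y + 1 := by
    intro s hs
    rw [hS', mem_S] at hs
    obtain ⟨σ, hσ⟩ := mem_orb.1 hs.1.2
    have h3 : mult s.2 y = mult g y + 1 := by
      rw [hσ, mult_comp, mult_cons, if_pos rfl]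
    rw [← h3]
    exact card_le_card fun l hl => by
      rw [mem_filter] at hl ⊢
      exact ⟨hl.1, hl.2.2⟩
  have h5 : T.card = ∑ s ∈ S', (univ.filter fun l => s.1 l = x ∧ s.2 l = y).card := by
    rw [hT, card_sigma]
  refine ⟨h1.trans ?_, h1.trans ?_⟩
  · rw [h5]
    exact (sum_le_card_nsmul _ _ _ h2).trans (by simp)
  · rw [h5]
    exact (sum_le_card_nsmul _ _ _ h2').trans (by simp)

/-- **The main lemma.** Adjoining adjacent vertices does not decrease the weight. -/
theorem step (adj : Fin n → Fin n → Prop) {x y : Fin n} (hxy : adj x y) (f g : Fin k → Fin n) :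
    W adj f g ≤ W adj (Fin.cons x f : Fin (k + 1) → Fin n) (Fin.cons y g : Fin (k + 1) → Fin n) := by
  obtain ⟨c1, c2⟩ := count_le adj hxy f g
  unfold W
  rw [sum_eq, sum_eq]
  have c1' : ((k : ℝ) + 1) * ((S adj f g).card : ℝ) ≤ ((S adj (Fin.cons x f : Fin (k + 1) → Fin n)
      (Fin.cons y g : Fin (k + 1) → Fin n)).card : ℝ) * ((mult f x : ℝ) + 1) := by exact_mod_cast c1
  have c2' : ((k : ℝ) + 1) * ((S adj f g).card : ℝ) ≤ ((S adj (Fin.cons x f : Fin (k + 1) → Fin n)
      (Fin.cons y g : Fin (k + 1) → Fin n)).card : ℝ) * ((mult g y : ℝ) + 1) := by exact_mod_cast c2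
  set N : ℝ := ((S adj f g).card : ℝ) with hN
  set N' : ℝ := ((S adj (Fin.cons x f : Fin (k + 1) → Fin n)
    (Fin.cons y g : Fin (k + 1) → Fin n)).card : ℝ) with hN'
  have hN0 : 0 ≤ N := Nat.cast_nonneg _
  have hN0' : 0 ≤ N' := Nat.cast_nonneg _
  have e1 := multinom_cons x f
  have e2 := multinom_cons y g
  have p1 := multinom_pos f
  have p2 := multinom_pos g
  have p3 := multinom_pos (Fin.cons x f : Fin (k + 1) → Fin n)
  have p4 := multinom_pos (Fin.cons y g : Fin (k + 1) → Fin n)
  set a := multinom f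
  set b := multinom g
  set a' := multinom (Fin.cons x f : Fin (k + 1) → Fin n)
  set b' := multinom (Fin.cons y g : Fin (k + 1) → Fin n)
  have m1 : (0 : ℝ) < mult f x + 1 := by positivity
  have m2 : (0 : ℝ) < mult g y + 1 := by positivity
  have hk : (0 : ℝ) < (k : ℝ) + 1 := by positivity
  have r1 : ∀ z : ℝ, 0 < z → z ^ (-(1 / 2) : ℝ) = (Real.sqrt z)⁻¹ := by
    intro z hz
    rw [Real.rpow_neg hz.le, Real.sqrt_eq_rpow]
  rw [r1 _ (mul_pos p1 p2), r1 _ (mul_pos p3 p4), inv_mul_eq_div, inv_mul_eq_div,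
    div_le_div_iff₀ (Real.sqrt_pos.2 (mul_pos p1 p2)) (Real.sqrt_pos.2 (mul_pos p3 p4))]
  have h1 : (N * Real.sqrt (a' * b')) ^ 2 ≤ (N' * Real.sqrt (a * b)) ^ 2 := by
    rw [mul_pow, mul_pow, Real.sq_sqrt (mul_pos p3 p4).le, Real.sq_sqrt (mul_pos p1 p2).le]
    have h2 : (((k : ℝ) + 1) * N) * (((k : ℝ) + 1) * N) ≤
        (N' * (mult f x + 1)) * (N' * (mult g y + 1)) :=
      mul_le_mul c1' c2' (by positivity) (by positivity)
    have h3 : 0 ≤ a' * b' := (mul_pos p3 p4).le
    have h4 := mul_le_mul_of_nonneg_left h2 h3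
    have h5 : a' * b' * ((N' * (mult f x + 1)) * (N' * (mult g y + 1))) =
        N' ^ 2 * (a * b) * (k + 1) ^ 2 := by
      calc a' * b' * ((N' * (mult f x + 1)) * (N' * (mult g y + 1)))
          = N' ^ 2 * ((a' * (mult f x + 1)) * (b' * (mult g y + 1))) := by ring
        _ = N' ^ 2 * (a * b) * (k + 1) ^ 2 := by rw [e1, e2]; ring
    rw [h5] at h4
    have h6 : 0 < ((k : ℝ) + 1) ^ 2 := by positivity
    have h7 : N ^ 2 * (a' * b') * ((k : ℝ) + 1) ^ 2 ≤ N' ^ 2 * (a * b) * (k + 1) ^ 2 := by
      refine le_trans (le_of_eq ?_) h4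
      ring
    exact le_of_mul_le_mul_right h7 h6
  exact (pow_le_pow_iff_left₀ (by positivity) (by positivity) two_ne_zero).1 h1

/-! ### Sorted tuples -/

/-- the sorted version of a tuple -/
def srt (f : Fin k → Fin n) : PowVertex n k := ⟨f ∘ Tuple.sort f, Tuple.monotone_sort f⟩

theorem srt_perm (f : Fin k → Fin n) : (List.ofFn (srt f).1).Perm (List.ofFn f) :=
  (Tuple.sort f).ofFn_comp_perm f

theorem eq_of_perm {i j : PowVertex n k} (h : (List.ofFn i.1).Perm (List.ofFn j.1)) : i = j := by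
  apply Subtype.ext
  apply List.ofFn_injective
  exact h.eq_of_sortedLE i.2.sortedLE_ofFn j.2.sortedLE_ofFn

/-- adjoin the vertex `x` -/
def ins (x : Fin n) (i : PowVertex n k) : PowVertex n (k + 1) :=
  srt (Fin.cons x i.1 : Fin (k + 1) → Fin n)

theorem ins_perm (x : Fin n) (i : PowVertex n k) :
    (List.ofFn (ins x i).1).Perm (x :: List.ofFn i.1) := by
  have h := srt_perm (Fin.cons x i.1 : Fin (k + 1) → Fin n)
  rwa [List.ofFn_cons] at h

theorem ins_injective (x : Fin n) : Function.Injective (ins (k := k) x) := by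
  intro i j h
  apply eq_of_perm
  have h1 := ins_perm x i
  rw [h] at h1
  exact (h1.symm.trans (ins_perm x j)).cons_inv

theorem ins_le (adj : Fin n → Fin n → Prop) {x y : Fin n} (hxy : adj x y) (i j : PowVertex n k) :
    powWeight adj i j ≤ powWeight adj (ins x i) (ins y j) := by
  rw [powWeight_eq, powWeight_eq, ins, ins, srt, srt, W_comp]
  exact step adj hxy i.1 j.1

/-- adjoin several vertices -/
def insF (k : ℕ) : (l : ℕ) → (Fin l → Fin n) → PowVertex n k → PowVertex n (k + l)
  | 0, _, i => i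
  | l + 1, w, i => ins (w 0) (insF k l (Fin.tail w) i)

theorem insF_perm (l : ℕ) (w : Fin l → Fin n) (i : PowVertex n k) :
    (List.ofFn (insF k l w i).1).Perm (List.ofFn w ++ List.ofFn i.1) := by
  induction l with
  | zero => simp [insF]
  | succ l ih =>
    rw [insF, List.ofFn_succ (f := w), List.cons_append]
    exact (ins_perm _ _).trans (List.Perm.cons _ (ih (Fin.tail w)))

theorem insF_comp (l : ℕ) (w : Fin l → Fin n) (σ : Equiv.Perm (Fin l)) (i : PowVertex n k) :
    insF k l (w ∘ σ) i = insF k l w i := by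
  apply eq_of_perm
  exact (insF_perm l _ i).trans (((σ.ofFn_comp_perm w).append_right _).trans (insF_perm l w i).symm)

theorem insF_injective (l : ℕ) (w : Fin l → Fin n) : Function.Injective (insF k l w) := by
  intro i j h
  apply eq_of_perm
  have h1 := insF_perm l w i
  rw [h] at h1
  exact (List.perm_append_left_iff _).1 (h1.symm.trans (insF_perm l w j))

theorem insF_le (adj : Fin n → Fin n → Prop) (l : ℕ) (w w' : Fin l → Fin n)
    (h : ∀ t, adj (w t) (w' t)) (i j : PowVertex n k) :
    powWeight adj i j ≤ powWeight adj (insF k l w i) (insF k l w' j) := by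
  induction l with
  | zero => exact le_refl _
  | succ l ih =>
    exact (ih (Fin.tail w) (Fin.tail w') fun t => h t.succ).trans (ins_le adj (h 0) _ _)

/-! ### Nesting -/

/-- `G^{⊙k}` is a weighted subgraph of `G^{⊙r}` -/
def Nested (adj : Fin n → Fin n → Prop) (k r : ℕ) : Prop :=
  IsWeightedSubgraph (powWeight adj (k := k)) (powWeight adj (k := r))

theorem Nested.refl (adj : Fin n → Fin n → Prop) (k : ℕ) : Nested adj k k :=
  ⟨id, Function.injective_id, fun _ _ => le_refl _⟩

theorem Nested.trans {adj : Fin n → Fin n → Prop} {k l r : ℕ} (h1 : Nested adj k l)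
    (h2 : Nested adj l r) : Nested adj k r := by
  obtain ⟨φ, hφ, h1⟩ := h1
  obtain ⟨ψ, hψ, h2⟩ := h2
  exact ⟨ψ ∘ φ, hψ.comp hφ, fun x y => (h1 x y).trans (h2 _ _)⟩

theorem nested_perm (adj : Fin n → Fin n → Prop) (k l : ℕ) (w : Fin l → Fin n)
    (σ : Equiv.Perm (Fin l)) (h : ∀ t, adj (w t) (w (σ t))) : Nested adj k (k + l) := by
  refine ⟨insF k l w, insF_injective l w, fun i j => ?_⟩
  have := insF_le adj l w (w ∘ σ) h i j
  rwa [insF_comp] at this

theorem powWeight_nonneg (adj : Fin n → Fin n → Prop) (i j : PowVertex n k) :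
    0 ≤ powWeight adj i j := by
  rw [powWeight_eq, W, sum_eq]
  have : 0 < (multinom i.1 * multinom j.1) ^ (-(1 / 2) : ℝ) :=
    Real.rpow_pos_of_pos (mul_pos (multinom_pos _) (multinom_pos _)) _
  positivity

theorem nested_two {adj : Fin n → Fin n → Prop} (hsymm : ∀ a b, adj a b → adj b a)
    (hedge : ∃ a b, adj a b) (k : ℕ) : Nested adj k (k + 2) := by
  obtain ⟨a, b, hab⟩ := hedge
  refine nested_perm adj k 2 ![a, b] (Equiv.swap 0 1) fun t => ?_
  fin_cases t
  · simpa using hab
  · simpa using hsymm _ _ hab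

theorem nested_noedge {adj : Fin n → Fin n → Prop} (hne : ¬ ∃ a b, adj a b) {k : ℕ} (hk : 1 ≤ k) :
    Nested adj k (k + 1) := by
  obtain ⟨k, rfl⟩ := Nat.exists_eq_add_of_le' hk
  rcases n.eq_zero_or_pos with rfl | hn
  · have : IsEmpty (PowVertex 0 (k + 1)) := ⟨fun i => (i.1 0).elim0⟩
    exact ⟨fun x => isEmptyElim x, fun x => isEmptyElim x, fun x => isEmptyElim x⟩
  · refine ⟨ins ⟨0, hn⟩, ins_injective _, fun i j => ?_⟩
    have h0 : ¬ 0 < powWeight adj i j := by
      rw [pow_pos_iff]
      rintro ⟨p, -, q, -, h⟩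
      exact hne ⟨_, _, h 0⟩
    exact (not_lt.1 h0).trans (powWeight_nonneg _ _ _)

theorem nested_even {adj : Fin n → Fin n → Prop} (hsymm : ∀ a b, adj a b → adj b a) {k : ℕ}
    (hk : 1 ≤ k) (t : ℕ) : Nested adj k (k + 2 * t) := by
  induction t with
  | zero => exact Nested.refl _ _
  | succ t ih =>
    refine ih.trans ?_
    have e : k + 2 * (t + 1) = k + 2 * t + 2 := by ring
    rw [e]
    by_cases hedge : ∃ a b, adj a b
    · exact nested_two hsymm hedge _
    · exact (nested_noedge hedge (by omega)).trans (nested_noedge hedge (by omega))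

/-! ### Bipartite graphs -/

/-- the number of entries of colour `true` -/
def cnt (c : Fin n → Bool) (i : Fin k → Fin n) : ℕ := (univ.filter fun s => c (i s) = true).card

theorem cnt_comp (c : Fin n → Bool) (f : Fin k → Fin n) (σ : Equiv.Perm (Fin k)) :
    cnt c (f ∘ σ) = cnt c f :=
  card_col c f (f ∘ σ) (mem_orb.2 ⟨σ, rfl⟩) true

theorem cnt_ins (c : Fin n → Bool) (x : Fin n) (i : PowVertex n k) :
    cnt c (ins x i).1 = cnt c i.1 + if c x = true then 1 else 0 := by
  rw [ins, srt, cnt_comp]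
  unfold cnt
  rw [Fin.card_filter_univ_succ']
  simp only [Fin.cons_zero, Fin.cons_succ]
  ring

theorem pow_zero_of_cnt {adj : Fin n → Fin n → Prop} {c : Fin n → Bool}
    (hc : ∀ a b, adj a b → c a ≠ c b) (i j : PowVertex n k) (h : cnt c i.1 + cnt c j.1 ≠ k) :
    powWeight adj i j ≤ 0 := by
  by_contra h0
  rw [not_le, pow_pos_iff] at h0
  obtain ⟨p, hp, q, hq, had⟩ := h0
  have h1 := card_col c _ p hp true
  have h2 := card_col c _ q hq true
  have h3 : (univ.filter fun s => c (p s) = true) =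
      univ \ (univ.filter fun s => c (q s) = true) := by
    ext s
    have := hc _ _ (had s)
    simp only [mem_filter, mem_univ, true_and, mem_sdiff]
    cases h4 : c (p s) <;> cases h5 : c (q s) <;> simp_all
  have h4 := card_sdiff_add_card_eq_card (subset_univ (univ.filter fun s => c (q s) = true))
  rw [← h3, h1, h2, card_univ, Fintype.card_fin] at h4
  exact h h4

theorem nested_odd {adj : Fin n → Fin n → Prop} (hsymm : ∀ a b, adj a b → adj b a)
    {c : Fin n → Bool} (hc : ∀ a b, adj a b → c a ≠ c b) (hedge : ∃ a b, adj a b) {k : ℕ}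
    (hk : Odd k) : Nested adj k (k + 1) := by
  -- an edge with `c u = true`, `c v = false`
  obtain ⟨u, v, hu, hv, huv⟩ : ∃ u v, c u = true ∧ c v = false ∧ adj u v := by
    obtain ⟨a, b, hab⟩ := hedge
    have := hc a b hab
    cases ha : c a <;> cases hb : c b
    · simp_all
    · exact ⟨b, a, hb, ha, hsymm _ _ hab⟩
    · exact ⟨a, b, ha, hb, hab⟩
    · simp_all
  have hvu := hsymm _ _ huv
  obtain ⟨m, hm⟩ := hk
  let φ : PowVertex n k → PowVertex n (k + 1) := fun i =>
    if 2 * cnt c i.1 < k then ins v i else ins u i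
  have h1 : ∀ i : PowVertex n k, 2 * cnt c i.1 < k → φ i = ins v i := fun i h => if_pos h
  have h2 : ∀ i : PowVertex n k, ¬ 2 * cnt c i.1 < k → φ i = ins u i := fun i h => if_neg h
  have hcross : ∀ i j : PowVertex n k, 2 * cnt c i.1 < k → ¬ 2 * cnt c j.1 < k →
      ins v i ≠ ins u j := by
    intro i j hi hj h
    have e1 := cnt_ins c v i
    have e2 := cnt_ins c u j
    rw [h, e2, hu, hv] at e1
    simp at e1
    omega
  refine ⟨φ, ?_, ?_⟩
  · intro i j h
    by_cases hi : 2 * cnt c i.1 < k <;> by_cases hj : 2 * cnt c j.1 < k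
    · rw [h1 i hi, h1 j hj] at h; exact ins_injective _ h
    · rw [h1 i hi, h2 j hj] at h; exact absurd h (hcross i j hi hj)
    · rw [h2 i hi, h1 j hj] at h; exact absurd h.symm (hcross j i hj hi)
    · rw [h2 i hi, h2 j hj] at h; exact ins_injective _ h
  · intro i j
    by_cases hi : 2 * cnt c i.1 < k <;> by_cases hj : 2 * cnt c j.1 < k
    · exact (pow_zero_of_cnt hc i j (by omega)).trans (powWeight_nonneg _ _ _)
    · rw [h1 i hi, h2 j hj]; exact ins_le adj hvu i j
    · rw [h2 i hi, h1 j hj]; exact ins_le adj huv i j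
    · exact (pow_zero_of_cnt hc i j (by omega)).trans (powWeight_nonneg _ _ _)

/-- **Nesting of the symmetric tensor powers.** Let `adj` be the adjacency relation of a finite
undirected graph `G` on `Fin n` (loops allowed), and `1 ≤ k ≤ r`. `Nested adj k r` says that
`G^{⊙k}` is a weighted subgraph of `G^{⊙r}`.

(1) If `r - k` is even then they are nested, for every graph `G`.

(2) They are nested if `G` has a closed walk `w_0 ~ w_1 ~ ⋯ ~ w_{l-1} ~ w_0` of odd length
`l ≤ r - k`.

(3) Complete answer for bipartite graphs with at least one edge: they are nested if and only if it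
is not the case that `k` is even and `r` is odd. -/
theorem result (n : ℕ) (adj : Fin n → Fin n → Prop) (hsymm : ∀ a b, adj a b → adj b a) :
    (∀ k r : ℕ, 1 ≤ k → k ≤ r → Even (r - k) → Nested adj k r) ∧
    (∀ (l : ℕ) (w : Fin l → Fin n), Odd l → (∀ t, adj (w t) (w (finRotate l t))) →
      ∀ k r : ℕ, 1 ≤ k → k + l ≤ r → Nested adj k r) ∧
    (∀ c : Fin n → Bool, (∀ a b, adj a b → c a ≠ c b) → (∃ a b, adj a b) →
      ∀ k r : ℕ, 1 ≤ k → k ≤ r → (Nested adj k r ↔ ¬ (Even k ∧ Odd r))) := by
  have key : ∀ k r : ℕ, 1 ≤ k → k ≤ r → Even (r - k) → Nested adj k r := by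
    rintro k r hk hkr ⟨t, ht⟩
    have e : r = k + 2 * t := by omega
    rw [e]
    exact nested_even hsymm hk t
  refine ⟨key, ?_, ?_⟩
  · intro l w hl hw k r hk hkr
    rcases Nat.even_or_odd (r - k) with h | h
    · exact key k r hk (by omega) h
    · refine (nested_perm adj k l w (finRotate l) hw).trans (key _ r (by omega) hkr ?_)
      obtain ⟨s, hs⟩ := hl
      obtain ⟨t, ht⟩ := h
      exact ⟨t - s, by omega⟩
  · intro c hc hedge k r hk hkr
    constructor
    · rintro h ⟨h1, h2⟩
      exact EvenOddBipartite.result n adj hsymm c hc hedge k r h1 h2 h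
    · intro h
      rcases Nat.even_or_odd (r - k) with h1 | h1
      · exact key k r hk hkr h1
      · have hko : Odd k := by
          rw [← Nat.not_even_iff_odd]
          intro hke
          apply h
          refine ⟨hke, ?_⟩
          obtain ⟨s, hs⟩ := hke
          obtain ⟨t, ht⟩ := h1
          exact ⟨s + t, by omega⟩
        refine (nested_odd hsymm hc hedge hko).trans (key _ r (by omega) ?_ ?_)
        · obtain ⟨t, ht⟩ := h1; omega
        · obtain ⟨t, ht⟩ := h1; exact ⟨t, by omega⟩

end Pool.Agent.Results.MP_6750b5_co.BipartiteClassification
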